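import Pool.Agent.Helper2.EG.Stmts

set_option autoImplicit false

namespace Pool.Agent.Helper2.EG

theorem cnt_modEq (K : ℕ) (m : ℕ → ℕ)
    (hc : ∀ i < K, ∀ j < K, i ≠ j → (m i).Coprime (m j)) (a b : ℕ)
    (h : ∀ k < K, a % m k = b % m k) :
    a ≡ b [MOD ∏ k ∈ Finset.range K, m k] := by
  rw [Nat.modEq_iff_dvd]
  push_cast
  apply Finset.prod_dvd_of_coprime
  · intro i hi j hj hij
    have hi' := Finset.mem_range.1 (Finset.mem_coe.1 hi)
    have hj' := Finset.mem_range.1 (Finset.mem_coe.1 hj)
    exact Nat.isCoprime_iff_coprime.2 (hc i hi' j hj' hij)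
  · intro i hi
    have hi' := Finset.mem_range.1 hi
    have h1 : a ≡ b [MOD m i] := h i hi'
    exact Nat.modEq_iff_dvd.1 h1

theorem st_CNT : ST_CNT := by
  intro K m A hm hc _ N
  set M := ∏ k ∈ Finset.range K, m k with hM
  set T : Finset (ℕ × ((k : ℕ) → k ∈ Finset.range K → ℕ)) :=
    Finset.range (N / M + 1) ×ˢ (Finset.range K).pi A with hT
  have hTc : T.card = (∏ k ∈ Finset.range K, (A k).card) * (N / M + 1) := by
    rw [hT, Finset.card_product, Finset.card_range, Finset.card_pi, mul_comm]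
  rw [← hTc, ← Set.ncard_coe_finset]
  apply Set.ncard_le_ncard_of_injOn (fun n => (n / M, fun k _ => n % m k)) _ _ T.finite_toSet
  · intro n hn
    obtain ⟨h1, h2⟩ := hn
    rw [Finset.mem_coe, hT, Finset.mem_product]
    refine ⟨?_, ?_⟩
    · rw [Finset.mem_range]
      exact Nat.lt_succ_of_le (Nat.div_le_div_right h1)
    · rw [Finset.mem_pi]
      intro k hk
      exact h2 k (Finset.mem_range.1 hk)
  · intro a _ b _ hab
    have h1 : a / M = b / M := congrArg Prod.fst hab
    have h2 : (fun (k : ℕ) (_ : k ∈ Finset.range K) => a % m k) =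
        (fun (k : ℕ) (_ : k ∈ Finset.range K) => b % m k) := congrArg Prod.snd hab
    have h3 : ∀ k < K, a % m k = b % m k := by
      intro k hk
      exact congrFun (congrFun h2 k) (Finset.mem_range.2 hk)
    have h4 : a % M = b % M := cnt_modEq K m hc a b h3
    calc a = M * (a / M) + a % M := (Nat.div_add_mod a M).symm
      _ = M * (b / M) + b % M := by rw [h1, h4]
      _ = b := Nat.div_add_mod b M

end Pool.Agent.Helper2.EG
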