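import Pool.Agent.Helper2.EG.Stmts

set_option autoImplicit false

namespace Pool.Agent.Helper2.EG

theorem st_REC : ST_REC := by
  intro u q hu hq hu4 hq4 h
  obtain ⟨a, _, ha⟩ := h
  have : Fact u.Prime := ⟨hu⟩
  have : Fact q.Prime := ⟨hq⟩
  have h1 : IsSquare (q : ZMod u) := by
    have h2 : (q : ZMod u) = ((a ^ 2 : ℕ) : ZMod u) := (ZMod.natCast_eq_natCast_iff _ _ _).2 ha
    rw [h2]
    push_cast
    exact ⟨(a : ZMod u), by ring⟩
  have h3 : IsSquare (u : ZMod q) :=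
    (ZMod.exists_sq_eq_prime_iff_of_mod_four_eq_one hu4 (by omega)).1 h1
  have h4 : IsSquare (-1 : ZMod q) := ZMod.exists_sq_eq_neg_one_iff.2 (by omega)
  obtain ⟨t, ht⟩ := h4.mul h3
  refine ⟨t.val, ?_⟩
  rw [← CharP.cast_eq_zero_iff (ZMod q) q]
  push_cast
  rw [ZMod.natCast_zmod_val, pow_two, ← ht]
  ring

end Pool.Agent.Helper2.EG
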